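import Pool.Agent.Y316.EV.Stm

/-!
# Project EV of helper316 (MP_b3b1c6_an), job EV-RELT: relative property (T) of
`(SL₂(ℤ) ⋉ ℤ², ℤ²)` for the quotients `(ℤ/p)²` (helper864)
-/

set_option autoImplicit false
set_option linter.unusedSectionVars false

open Finset

namespace Pool.Agent.Z864.RT

open Pool.Agent.Y316.EV (S_RELT)

variable {p : ℕ} [NeZero p]

/-- the dual group of `(ℤ/p)²` -/
abbrev V (p : ℕ) := ZMod p × ZMod p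

/-- the character -/
noncomputable def ps (x : ZMod p) : ℂ := ZMod.stdAddChar x

lemma ps_add (x y : ZMod p) : ps (x + y) = ps x * ps y := AddChar.map_add_eq_mul _ x y

lemma ps_conj (x : ZMod p) : (starRingEnd ℂ) (ps x) = ps (-x) :=
  (AddChar.map_neg_eq_conj _ x).symm

lemma orth (t : V p) : ∑ ξ : V p, ps (ξ.1 * t.1 + ξ.2 * t.2) = if t = 0 then (p : ℂ) ^ 2 else 0 := by
  classical
  have h1 : ∀ b : ZMod p, ∑ x : ZMod p, ps (x * b) = if b = 0 then (p : ℂ) else 0 := by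
    intro b
    have h := AddChar.sum_mulShift b (ZMod.isPrimitive_stdAddChar p)
    rw [ZMod.card] at h
    split_ifs at h ⊢ <;> simpa [ps] using h
  rw [Fintype.sum_prod_type]
  simp only [ps_add]
  simp only [← Finset.mul_sum]
  rw [← Finset.sum_mul, h1, h1]
  by_cases e1 : t.1 = 0
  · by_cases e2 : t.2 = 0
    · rw [if_pos e1, if_pos e2, if_pos (Prod.ext e1 e2)]
      ring
    · rw [if_neg e2, if_neg (fun h => e2 (congrArg Prod.snd h)), mul_zero]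
  · rw [if_neg e1, if_neg (fun h => e1 (congrArg Prod.fst h)), zero_mul]

/-- the Fourier transform -/
noncomputable def ft (H : V p → ℂ) (ξ : V p) : ℂ := ∑ v, H v * ps (-(ξ.1 * v.1 + ξ.2 * v.2))

lemma parseval (H : V p → ℂ) : ∑ ξ, ‖ft H ξ‖ ^ 2 = (p : ℝ) ^ 2 * ∑ v, ‖H v‖ ^ 2 := by
  classical
  have h1 : ∀ ξ, ((‖ft H ξ‖ ^ 2 : ℝ) : ℂ) = ∑ v, ∑ w, H v * (starRingEnd ℂ) (H w) *
      ps (ξ.1 * (w - v).1 + ξ.2 * (w - v).2) := by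
    intro ξ
    have e : ((‖ft H ξ‖ ^ 2 : ℝ) : ℂ) = ft H ξ * (starRingEnd ℂ) (ft H ξ) := by
      rw [Complex.mul_conj, Complex.normSq_eq_norm_sq]
    rw [e]
    unfold ft
    rw [map_sum, Finset.sum_mul_sum]
    refine Finset.sum_congr rfl fun v _ => Finset.sum_congr rfl fun w _ => ?_
    rw [map_mul, ps_conj]
    have e2 : ps (ξ.1 * (w - v).1 + ξ.2 * (w - v).2) =
        ps (-(ξ.1 * v.1 + ξ.2 * v.2)) * ps (- -(ξ.1 * w.1 + ξ.2 * w.2)) := by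
      rw [← ps_add]
      congr 1
      simp only [Prod.fst_sub, Prod.snd_sub]
      ring
    rw [e2]
    ring
  have h2 : ((∑ ξ, ‖ft H ξ‖ ^ 2 : ℝ) : ℂ) = (((p : ℝ) ^ 2 * ∑ v, ‖H v‖ ^ 2 : ℝ) : ℂ) := by
    rw [Complex.ofReal_sum]
    simp only [h1]
    rw [Finset.sum_comm]
    rw [Complex.ofReal_mul, Complex.ofReal_sum, Finset.mul_sum]
    refine Finset.sum_congr rfl fun v _ => ?_
    rw [Finset.sum_comm]
    have h3 : ∀ w, ∑ ξ : V p, H v * (starRingEnd ℂ) (H w) *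
        ps (ξ.1 * (w - v).1 + ξ.2 * (w - v).2) =
        if w = v then H v * (starRingEnd ℂ) (H w) * (p : ℂ) ^ 2 else 0 := by
      intro w
      rw [← Finset.mul_sum, orth]
      by_cases hw : w = v
      · rw [if_pos hw, if_pos (sub_eq_zero.2 hw)]
      · rw [if_neg hw, if_neg (fun h => hw (sub_eq_zero.1 h)), mul_zero]
    simp only [h3]
    rw [Finset.sum_ite_eq' Finset.univ v, if_pos (Finset.mem_univ v), Complex.mul_conj,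
      Complex.normSq_eq_norm_sq]
    push_cast
    ring
  exact_mod_cast h2

lemma ft_translate (H : V p → ℂ) (e ξ : V p) :
    ft (fun v => H (v + e)) ξ = ps (ξ.1 * e.1 + ξ.2 * e.2) * ft H ξ := by
  unfold ft
  rw [Finset.mul_sum, ← Equiv.sum_comp (Equiv.addRight e)
    (fun v => ps (ξ.1 * e.1 + ξ.2 * e.2) * (H v * ps (-(ξ.1 * v.1 + ξ.2 * v.2))))]
  refine Finset.sum_congr rfl fun v _ => ?_
  have e2 : ps (-(ξ.1 * v.1 + ξ.2 * v.2)) = ps (ξ.1 * e.1 + ξ.2 * e.2) *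
      ps (-(ξ.1 * (v + e).1 + ξ.2 * (v + e).2)) := by
    rw [← ps_add]
    congr 1
    simp only [Prod.fst_add, Prod.snd_add]
    ring
  rw [e2]
  simp only [Equiv.coe_addRight]
  ring

/-- `(x, y) ↦ (x, y - x)` -/
def R0 : V p ≃ V p where
  toFun v := (v.1, v.2 - v.1)
  invFun v := (v.1, v.1 + v.2)
  left_inv v := by ext <;> simp
  right_inv v := by ext <;> simp

/-- `(x, y) ↦ (x - y, y)` -/
def R1 : V p ≃ V p where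
  toFun v := (v.1 - v.2, v.2)
  invFun v := (v.1 + v.2, v.2)
  left_inv v := by ext <;> simp
  right_inv v := by ext <;> simp

lemma ft_T0 (H : V p → ℂ) (ξ : V p) : ft (fun v => H (R1.symm v)) ξ = ft H (R0 ξ) := by
  unfold ft
  rw [← Equiv.sum_comp (R1 : V p ≃ V p)]
  refine Finset.sum_congr rfl fun v _ => ?_
  change H (R1.symm (R1 v)) * _ = _
  rw [Equiv.symm_apply_apply]
  congr 2
  simp only [R0, R1, Equiv.coe_fn_mk]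
  ring

lemma ft_T1 (H : V p → ℂ) (ξ : V p) : ft (fun v => H (R0.symm v)) ξ = ft H (R1 ξ) := by
  unfold ft
  rw [← Equiv.sum_comp (R0 : V p ≃ V p)]
  refine Finset.sum_congr rfl fun v _ => ?_
  change H (R0.symm (R0 v)) * _ = _
  rw [Equiv.symm_apply_apply]
  congr 2
  simp only [R0, R1, Equiv.coe_fn_mk]
  ring

lemma ft_sub (H G : V p → ℂ) (ξ : V p) : ft (fun v => H v - G v) ξ = ft H ξ - ft G ξ := by
  unfold ft
  rw [← Finset.sum_sub_distrib]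
  refine Finset.sum_congr rfl fun v _ => ?_
  ring

lemma ft_smul (c : ℂ) (H : V p → ℂ) (ξ : V p) : ft (fun v => c * H v) ξ = c * ft H ξ := by
  unfold ft
  rw [Finset.mul_sum]
  refine Finset.sum_congr rfl fun v _ => ?_
  ring

/-- the character is far from one at points which are far from zero -/
lemma ps_far {x : ZMod p} (hx : (p : ℤ) ≤ 4 * |x.valMinAbs|) : 2 ≤ ‖ps x - 1‖ ^ 2 := by
  have hp : (0 : ℝ) < p := by exact_mod_cast Nat.pos_of_ne_zero (NeZero.ne p)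
  obtain ⟨j, hj⟩ : ∃ j : ℤ, j = x.valMinAbs := ⟨_, rfl⟩
  have hj2 : 2 * |j| ≤ p := by
    have h1 := ZMod.valMinAbs_mem_Ioc x
    rw [← hj] at h1
    obtain ⟨h2, h3⟩ := h1
    rcases abs_cases j with h | h <;> omega
  have hxj : x = ((j : ℤ) : ZMod p) := by rw [hj, ZMod.coe_valMinAbs]
  rw [← hj] at hx
  obtain ⟨θ, hθ⟩ : ∃ θ : ℝ, θ = 2 * Real.pi * j / p := ⟨_, rfl⟩
  have e1 : ps x = Complex.exp (θ * Complex.I) := by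
    unfold ps
    rw [hxj, ZMod.stdAddChar_coe, hθ]
    congr 1
    push_cast
    ring
  have e2 : ‖ps x - 1‖ ^ 2 = 2 - 2 * Real.cos θ := by
    rw [e1, ← Complex.normSq_eq_norm_sq, Complex.normSq_apply]
    simp only [Complex.sub_re, Complex.sub_im, Complex.one_re, Complex.one_im,
      Complex.exp_ofReal_mul_I_re, Complex.exp_ofReal_mul_I_im]
    have := Real.sin_sq_add_cos_sq θ
    nlinarith
  have h4 : |θ| = 2 * Real.pi * |(j : ℝ)| / p := by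
    rw [hθ, abs_div, abs_mul, abs_of_pos hp, abs_of_pos (by positivity : 0 < 2 * Real.pi)]
  have h5 : (p : ℝ) ≤ 4 * |(j : ℝ)| := by exact_mod_cast hx
  have h6 : 2 * |(j : ℝ)| ≤ p := by exact_mod_cast hj2
  have hpi := Real.pi_pos
  have h7 : Real.cos θ ≤ 0 := by
    rw [← Real.cos_abs]
    apply Real.cos_nonpos_of_pi_div_two_le_of_le
    · rw [h4, le_div_iff₀ hp]
      nlinarith
    · rw [h4, div_le_iff₀ hp]
      nlinarith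
  rw [e2]
  linarith

/-- the box -/
def Bx (ξ : V p) : Prop := 4 * |ξ.1.valMinAbs| < p ∧ 4 * |ξ.2.valMinAbs| < p

instance : DecidablePred (Bx : V p → Prop) := fun _ => by unfold Bx; infer_instance

lemma vma_of {x : ZMod p} {j : ℤ} (h : x = (j : ZMod p)) (hj : 2 * |j| < p) : x.valMinAbs = j := by
  rw [ZMod.valMinAbs_spec]
  refine ⟨h, ?_⟩
  rw [Set.mem_Ioc]
  rcases abs_cases j with h | h <;> omega

lemma vma_add {x y : ZMod p} (hx : 4 * |x.valMinAbs| < p) (hy : 4 * |y.valMinAbs| < p) :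
    (x + y).valMinAbs = x.valMinAbs + y.valMinAbs := by
  apply vma_of
  · rw [Int.cast_add, ZMod.coe_valMinAbs, ZMod.coe_valMinAbs]
  · have := abs_add_le x.valMinAbs y.valMinAbs
    omega

lemma vma_sub {x y : ZMod p} (hx : 4 * |x.valMinAbs| < p) (hy : 4 * |y.valMinAbs| < p) :
    (x - y).valMinAbs = x.valMinAbs - y.valMinAbs := by
  apply vma_of
  · rw [Int.cast_sub, ZMod.coe_valMinAbs, ZMod.coe_valMinAbs]
  · have := abs_sub x.valMinAbs y.valMinAbs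
    omega

lemma sum_union_le {α : Type} [DecidableEq α] {ν : α → ℝ} (hν : ∀ ξ, 0 ≤ ν ξ) (S T : Finset α) :
    ∑ ξ ∈ S ∪ T, ν ξ ≤ ∑ ξ ∈ S, ν ξ + ∑ ξ ∈ T, ν ξ := by
  rw [← Finset.sum_union_inter]
  have : 0 ≤ ∑ ξ ∈ S ∩ T, ν ξ := Finset.sum_nonneg fun ξ _ => hν ξ
  linarith

/-- one quadrant -/
lemma quad {ν : V p → ℝ} (hν : ∀ ξ, 0 ≤ ν ξ) {D b : ℝ} (Q : V p → Prop) [DecidablePred Q]
    (A B : V p ≃ V p)
    (hA : ∑ ξ ∈ univ.filter (fun ξ => Bx ξ ∧ Q ξ), ν ξ - D ≤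
      ∑ ξ ∈ (univ.filter (fun ξ => Bx ξ ∧ Q ξ)).map A.toEmbedding, ν ξ)
    (hB : ∑ ξ ∈ univ.filter (fun ξ => Bx ξ ∧ Q ξ), ν ξ - D ≤
      ∑ ξ ∈ (univ.filter (fun ξ => Bx ξ ∧ Q ξ)).map B.toEmbedding, ν ξ)
    (hAQ : ∀ ξ, Bx ξ → Q ξ → Q (A ξ)) (hBQ : ∀ ξ, Bx ξ → Q ξ → Q (B ξ))
    (hAB : ∀ ξ η, Bx ξ → Q ξ → Bx η → Q η → A ξ ≠ B η)
    (hb : ∑ ξ ∈ univ.filter (fun ξ : V p => ¬ Bx ξ), ν ξ ≤ b) :
    ∑ ξ ∈ univ.filter (fun ξ => Bx ξ ∧ Q ξ), ν ξ ≤ 2 * D + b := by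
  classical
  set P := univ.filter (fun ξ : V p => Bx ξ ∧ Q ξ) with hP
  have hd : Disjoint (P.map A.toEmbedding) (P.map B.toEmbedding) := by
    rw [Finset.disjoint_left]
    rintro ζ h1 h2
    obtain ⟨ξ, hξ, rfl⟩ := Finset.mem_map.1 h1
    obtain ⟨η, hη, he⟩ := Finset.mem_map.1 h2
    rw [hP, Finset.mem_filter] at hξ hη
    exact hAB ξ η hξ.2.1 hξ.2.2 hη.2.1 hη.2.2 he.symm
  have hsub : P.map A.toEmbedding ∪ P.map B.toEmbedding ⊆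
      P ∪ univ.filter (fun ξ : V p => ¬ Bx ξ) := by
    intro ζ hζ
    have hQ : Q ζ := by
      rcases Finset.mem_union.1 hζ with h | h
      · obtain ⟨ξ, hξ, rfl⟩ := Finset.mem_map.1 h
        rw [hP, Finset.mem_filter] at hξ
        exact hAQ ξ hξ.2.1 hξ.2.2
      · obtain ⟨ξ, hξ, rfl⟩ := Finset.mem_map.1 h
        rw [hP, Finset.mem_filter] at hξ
        exact hBQ ξ hξ.2.1 hξ.2.2
    rw [Finset.mem_union, hP, Finset.mem_filter, Finset.mem_filter]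
    by_cases hbx : Bx ζ
    · exact Or.inl ⟨Finset.mem_univ _, hbx, hQ⟩
    · exact Or.inr ⟨Finset.mem_univ _, hbx⟩
  have h1 := Finset.sum_le_sum_of_subset_of_nonneg hsub (fun ξ _ _ => hν ξ)
  rw [Finset.sum_union hd] at h1
  have h2 := sum_union_le hν P (univ.filter (fun ξ : V p => ¬ Bx ξ))
  linarith

/-- coordinates -/
def X (ξ : V p) : ℤ := ξ.1.valMinAbs
def Y (ξ : V p) : ℤ := ξ.2.valMinAbs

lemma Bx_iff (ξ : V p) : Bx ξ ↔ 4 * |X ξ| < p ∧ 4 * |Y ξ| < p := Iff.rfl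

lemma X_R0 (ξ : V p) : X (R0 ξ) = X ξ := rfl
lemma Y_R0 {ξ : V p} (h : Bx ξ) : Y (R0 ξ) = Y ξ - X ξ := vma_sub h.2 h.1
lemma X_R1 {ξ : V p} (h : Bx ξ) : X (R1 ξ) = X ξ - Y ξ := vma_sub h.1 h.2
lemma Y_R1 (ξ : V p) : Y (R1 ξ) = Y ξ := rfl
lemma X_S0 (ξ : V p) : X (R0.symm ξ) = X ξ := rfl
lemma Y_S0 {ξ : V p} (h : Bx ξ) : Y (R0.symm ξ) = X ξ + Y ξ := vma_add h.1 h.2
lemma X_S1 {ξ : V p} (h : Bx ξ) : X (R1.symm ξ) = X ξ + Y ξ := vma_add h.1 h.2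
lemma Y_S1 (ξ : V p) : Y (R1.symm ξ) = Y ξ := rfl

lemma eq_zero_iff (ξ : V p) : ξ = 0 ↔ X ξ = 0 ∧ Y ξ = 0 := by
  rw [Prod.ext_iff]
  unfold X Y
  rw [ZMod.valMinAbs_eq_zero, ZMod.valMinAbs_eq_zero]
  rfl

/-- the combinatorial part -/
theorem comb {ν : V p → ℝ} (hν : ∀ ξ, 0 ≤ ν ξ) {D b : ℝ}
    (h0 : ∀ P : Finset (V p), |∑ ξ ∈ P.map R0.toEmbedding, ν ξ - ∑ ξ ∈ P, ν ξ| ≤ D)
    (h1 : ∀ P : Finset (V p), |∑ ξ ∈ P.map R1.toEmbedding, ν ξ - ∑ ξ ∈ P, ν ξ| ≤ D)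
    (hb : ∑ ξ ∈ univ.filter (fun ξ : V p => ¬ Bx ξ), ν ξ ≤ b) :
    ∑ ξ, ν ξ ≤ ν 0 + 18 * D + 9 * b := by
  classical
  have hs : ∀ (R : V p ≃ V p), (∀ P : Finset (V p),
      |∑ ξ ∈ P.map R.toEmbedding, ν ξ - ∑ ξ ∈ P, ν ξ| ≤ D) → ∀ P : Finset (V p),
      |∑ ξ ∈ P.map R.symm.toEmbedding, ν ξ - ∑ ξ ∈ P, ν ξ| ≤ D := by
    intro R h P
    have h2 := h (P.map R.symm.toEmbedding)
    have e : (P.map R.symm.toEmbedding).map R.toEmbedding = P := by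
      ext x
      simp
    rw [e, abs_sub_comm] at h2
    exact h2
  have g0 := hs R0 h0
  have g1 := hs R1 h1
  have lo : ∀ (R : V p ≃ V p), (∀ P : Finset (V p),
      |∑ ξ ∈ P.map R.toEmbedding, ν ξ - ∑ ξ ∈ P, ν ξ| ≤ D) → ∀ P : Finset (V p),
      ∑ ξ ∈ P, ν ξ - D ≤ ∑ ξ ∈ P.map R.toEmbedding, ν ξ := by
    intro R h P
    have h2 := abs_le.1 (h P)
    linarith
  -- the quadrants
  have q1 : ∑ ξ ∈ univ.filter (fun ξ : V p => Bx ξ ∧ (0 < X ξ ∧ 0 < Y ξ)), ν ξ ≤ 2 * D + b := by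
    refine quad hν _ R0.symm R1.symm (lo _ g0 _) (lo _ g1 _) ?_ ?_ ?_ hb
    · intro ξ hB hQ
      rw [X_S0, Y_S0 hB]; omega
    · intro ξ hB hQ
      rw [X_S1 hB, Y_S1]; omega
    · intro ξ η hB hQ hB' hQ' he
      have e1 := congrArg X he
      have e2 := congrArg Y he
      rw [X_S0, X_S1 hB'] at e1
      rw [Y_S0 hB, Y_S1] at e2
      omega
  have q2 : ∑ ξ ∈ univ.filter (fun ξ : V p => Bx ξ ∧ (X ξ < 0 ∧ Y ξ < 0)), ν ξ ≤ 2 * D + b := by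
    refine quad hν _ R0.symm R1.symm (lo _ g0 _) (lo _ g1 _) ?_ ?_ ?_ hb
    · intro ξ hB hQ
      rw [X_S0, Y_S0 hB]; omega
    · intro ξ hB hQ
      rw [X_S1 hB, Y_S1]; omega
    · intro ξ η hB hQ hB' hQ' he
      have e1 := congrArg X he
      have e2 := congrArg Y he
      rw [X_S0, X_S1 hB'] at e1
      rw [Y_S0 hB, Y_S1] at e2
      omega
  have q3 : ∑ ξ ∈ univ.filter (fun ξ : V p => Bx ξ ∧ (0 < X ξ ∧ Y ξ < 0)), ν ξ ≤ 2 * D + b := by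
    refine quad hν _ R0 R1 (lo _ h0 _) (lo _ h1 _) ?_ ?_ ?_ hb
    · intro ξ hB hQ
      rw [X_R0, Y_R0 hB]; omega
    · intro ξ hB hQ
      rw [X_R1 hB, Y_R1]; omega
    · intro ξ η hB hQ hB' hQ' he
      have e1 := congrArg X he
      have e2 := congrArg Y he
      rw [X_R0, X_R1 hB'] at e1
      rw [Y_R0 hB, Y_R1] at e2
      omega
  have q4 : ∑ ξ ∈ univ.filter (fun ξ : V p => Bx ξ ∧ (X ξ < 0 ∧ 0 < Y ξ)), ν ξ ≤ 2 * D + b := by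
    refine quad hν _ R0 R1 (lo _ h0 _) (lo _ h1 _) ?_ ?_ ?_ hb
    · intro ξ hB hQ
      rw [X_R0, Y_R0 hB]; omega
    · intro ξ hB hQ
      rw [X_R1 hB, Y_R1]; omega
    · intro ξ η hB hQ hB' hQ' he
      have e1 := congrArg X he
      have e2 := congrArg Y he
      rw [X_R0, X_R1 hB'] at e1
      rw [Y_R0 hB, Y_R1] at e2
      omega
  -- the axes
  have hax : ∀ (Q : V p → Prop) [DecidablePred Q] (R : V p ≃ V p), (∀ P : Finset (V p),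
      |∑ ξ ∈ P.map R.toEmbedding, ν ξ - ∑ ξ ∈ P, ν ξ| ≤ D) →
      (∀ ξ, Bx ξ → Q ξ → Bx (R ξ) ∧ ((0 < X (R ξ) ∧ 0 < Y (R ξ)) ∨ (X (R ξ) < 0 ∧ Y (R ξ) < 0))) →
      ∑ ξ ∈ univ.filter (fun ξ : V p => Bx ξ ∧ Q ξ), ν ξ ≤ 5 * D + 2 * b := by
    intro Q _ R hR hQ
    have k1 := lo R hR (univ.filter (fun ξ : V p => Bx ξ ∧ Q ξ))
    have k2 : (univ.filter (fun ξ : V p => Bx ξ ∧ Q ξ)).map R.toEmbedding ⊆
        univ.filter (fun ξ : V p => Bx ξ ∧ (0 < X ξ ∧ 0 < Y ξ)) ∪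
        univ.filter (fun ξ : V p => Bx ξ ∧ (X ξ < 0 ∧ Y ξ < 0)) := by
      intro ζ hζ
      obtain ⟨ξ, hξ, rfl⟩ := Finset.mem_map.1 hζ
      rw [Finset.mem_filter] at hξ
      have k3 := hQ ξ hξ.2.1 hξ.2.2
      rw [Finset.mem_union, Finset.mem_filter, Finset.mem_filter]
      rcases k3.2 with h | h
      · exact Or.inl ⟨Finset.mem_univ _, k3.1, h⟩
      · exact Or.inr ⟨Finset.mem_univ _, k3.1, h⟩
    have k3 := Finset.sum_le_sum_of_subset_of_nonneg k2 (fun ξ _ _ => hν ξ)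
    have k4 := sum_union_le hν (univ.filter (fun ξ : V p => Bx ξ ∧ (0 < X ξ ∧ 0 < Y ξ)))
      (univ.filter (fun ξ : V p => Bx ξ ∧ (X ξ < 0 ∧ Y ξ < 0)))
    linarith
  have a1 : ∑ ξ ∈ univ.filter (fun ξ : V p => Bx ξ ∧ (X ξ ≠ 0 ∧ Y ξ = 0)), ν ξ ≤ 5 * D + 2 * b := by
    refine hax _ R0.symm g0 ?_
    intro ξ hB hQ
    have hB' := hB
    rw [Bx_iff] at hB' ⊢
    rw [X_S0, Y_S0 hB, hQ.2, add_zero]
    refine ⟨⟨hB'.1, hB'.1⟩, ?_⟩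
    omega
  have a2 : ∑ ξ ∈ univ.filter (fun ξ : V p => Bx ξ ∧ (X ξ = 0 ∧ Y ξ ≠ 0)), ν ξ ≤ 5 * D + 2 * b := by
    refine hax _ R1.symm g1 ?_
    intro ξ hB hQ
    have hB' := hB
    rw [Bx_iff] at hB' ⊢
    rw [Y_S1, X_S1 hB, hQ.1, zero_add]
    refine ⟨⟨hB'.2, hB'.2⟩, ?_⟩
    omega
  -- all together
  have hcov : (univ : Finset (V p)) ⊆ {0} ∪ (univ.filter (fun ξ : V p => ¬ Bx ξ) ∪
      (univ.filter (fun ξ : V p => Bx ξ ∧ (0 < X ξ ∧ 0 < Y ξ)) ∪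
      (univ.filter (fun ξ : V p => Bx ξ ∧ (X ξ < 0 ∧ Y ξ < 0)) ∪
      (univ.filter (fun ξ : V p => Bx ξ ∧ (0 < X ξ ∧ Y ξ < 0)) ∪
      (univ.filter (fun ξ : V p => Bx ξ ∧ (X ξ < 0 ∧ 0 < Y ξ)) ∪
      (univ.filter (fun ξ : V p => Bx ξ ∧ (X ξ ≠ 0 ∧ Y ξ = 0)) ∪
      univ.filter (fun ξ : V p => Bx ξ ∧ (X ξ = 0 ∧ Y ξ ≠ 0)))))))) := by
    intro ξ _
    simp only [Finset.mem_union, Finset.mem_filter, Finset.mem_univ, true_and,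
      Finset.mem_singleton, eq_zero_iff]
    by_cases hB : Bx ξ
    · have : (X ξ = 0 ∧ Y ξ = 0) ∨ (0 < X ξ ∧ 0 < Y ξ) ∨ (X ξ < 0 ∧ Y ξ < 0) ∨
        (0 < X ξ ∧ Y ξ < 0) ∨ (X ξ < 0 ∧ 0 < Y ξ) ∨ (X ξ ≠ 0 ∧ Y ξ = 0) ∨
        (X ξ = 0 ∧ Y ξ ≠ 0) := by omega
      tauto
    · tauto
  have k0 := Finset.sum_le_sum_of_subset_of_nonneg hcov (fun ξ _ _ => hν ξ)
  have u1 := sum_union_le hν ({0} : Finset (V p)) (univ.filter (fun ξ : V p => ¬ Bx ξ) ∪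
      (univ.filter (fun ξ : V p => Bx ξ ∧ (0 < X ξ ∧ 0 < Y ξ)) ∪
      (univ.filter (fun ξ : V p => Bx ξ ∧ (X ξ < 0 ∧ Y ξ < 0)) ∪
      (univ.filter (fun ξ : V p => Bx ξ ∧ (0 < X ξ ∧ Y ξ < 0)) ∪
      (univ.filter (fun ξ : V p => Bx ξ ∧ (X ξ < 0 ∧ 0 < Y ξ)) ∪
      (univ.filter (fun ξ : V p => Bx ξ ∧ (X ξ ≠ 0 ∧ Y ξ = 0)) ∪
      univ.filter (fun ξ : V p => Bx ξ ∧ (X ξ = 0 ∧ Y ξ ≠ 0))))))))
  have u2 := sum_union_le hν (univ.filter (fun ξ : V p => ¬ Bx ξ))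
      (univ.filter (fun ξ : V p => Bx ξ ∧ (0 < X ξ ∧ 0 < Y ξ)) ∪
      (univ.filter (fun ξ : V p => Bx ξ ∧ (X ξ < 0 ∧ Y ξ < 0)) ∪
      (univ.filter (fun ξ : V p => Bx ξ ∧ (0 < X ξ ∧ Y ξ < 0)) ∪
      (univ.filter (fun ξ : V p => Bx ξ ∧ (X ξ < 0 ∧ 0 < Y ξ)) ∪
      (univ.filter (fun ξ : V p => Bx ξ ∧ (X ξ ≠ 0 ∧ Y ξ = 0)) ∪
      univ.filter (fun ξ : V p => Bx ξ ∧ (X ξ = 0 ∧ Y ξ ≠ 0)))))))
  have u3 := sum_union_le hν (univ.filter (fun ξ : V p => Bx ξ ∧ (0 < X ξ ∧ 0 < Y ξ)))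
      (univ.filter (fun ξ : V p => Bx ξ ∧ (X ξ < 0 ∧ Y ξ < 0)) ∪
      (univ.filter (fun ξ : V p => Bx ξ ∧ (0 < X ξ ∧ Y ξ < 0)) ∪
      (univ.filter (fun ξ : V p => Bx ξ ∧ (X ξ < 0 ∧ 0 < Y ξ)) ∪
      (univ.filter (fun ξ : V p => Bx ξ ∧ (X ξ ≠ 0 ∧ Y ξ = 0)) ∪
      univ.filter (fun ξ : V p => Bx ξ ∧ (X ξ = 0 ∧ Y ξ ≠ 0))))))
  have u4 := sum_union_le hν (univ.filter (fun ξ : V p => Bx ξ ∧ (X ξ < 0 ∧ Y ξ < 0)))
      (univ.filter (fun ξ : V p => Bx ξ ∧ (0 < X ξ ∧ Y ξ < 0)) ∪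
      (univ.filter (fun ξ : V p => Bx ξ ∧ (X ξ < 0 ∧ 0 < Y ξ)) ∪
      (univ.filter (fun ξ : V p => Bx ξ ∧ (X ξ ≠ 0 ∧ Y ξ = 0)) ∪
      univ.filter (fun ξ : V p => Bx ξ ∧ (X ξ = 0 ∧ Y ξ ≠ 0)))))
  have u5 := sum_union_le hν (univ.filter (fun ξ : V p => Bx ξ ∧ (0 < X ξ ∧ Y ξ < 0)))
      (univ.filter (fun ξ : V p => Bx ξ ∧ (X ξ < 0 ∧ 0 < Y ξ)) ∪
      (univ.filter (fun ξ : V p => Bx ξ ∧ (X ξ ≠ 0 ∧ Y ξ = 0)) ∪
      univ.filter (fun ξ : V p => Bx ξ ∧ (X ξ = 0 ∧ Y ξ ≠ 0))))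
  have u6 := sum_union_le hν (univ.filter (fun ξ : V p => Bx ξ ∧ (X ξ < 0 ∧ 0 < Y ξ)))
      (univ.filter (fun ξ : V p => Bx ξ ∧ (X ξ ≠ 0 ∧ Y ξ = 0)) ∪
      univ.filter (fun ξ : V p => Bx ξ ∧ (X ξ = 0 ∧ Y ξ ≠ 0)))
  have u7 := sum_union_le hν (univ.filter (fun ξ : V p => Bx ξ ∧ (X ξ ≠ 0 ∧ Y ξ = 0)))
      (univ.filter (fun ξ : V p => Bx ξ ∧ (X ξ = 0 ∧ Y ξ ≠ 0)))
  rw [Finset.sum_singleton] at u1
  linarith

/-- perturbation in `L²` -/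
lemma pert {a : V p → ℂ} {N0 ε c : ℝ} (hN : ∑ ξ, ‖a ξ‖ ^ 2 = N0) (hε : 0 ≤ ε) (hc : |c| = 1)
    (R : V p ≃ V p) (h : ∑ ξ, ‖a (R ξ) - c * a ξ‖ ^ 2 ≤ ε * N0) (P : Finset (V p)) :
    |∑ ξ ∈ P.map R.toEmbedding, ‖a ξ‖ ^ 2 - ∑ ξ ∈ P, ‖a ξ‖ ^ 2| ≤ 2 * Real.sqrt ε * N0 := by
  have hN0 : 0 ≤ N0 := by rw [← hN]; positivity
  rw [Finset.sum_map, ← Finset.sum_sub_distrib]
  have h1 : |∑ ξ ∈ P, (‖a (R.toEmbedding ξ)‖ ^ 2 - ‖a ξ‖ ^ 2)| ≤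
      ∑ ξ, ‖a (R ξ) - c * a ξ‖ * (‖a (R ξ)‖ + ‖a ξ‖) := by
    refine (Finset.abs_sum_le_sum_abs _ _).trans ?_
    refine (Finset.sum_le_univ_sum_of_nonneg (fun ξ => abs_nonneg _)).trans ?_
    refine Finset.sum_le_sum fun ξ _ => ?_
    change |‖a (R ξ)‖ ^ 2 - ‖a ξ‖ ^ 2| ≤ _
    have e1 : ‖(c : ℂ) * a ξ‖ = ‖a ξ‖ := by
      rw [norm_mul, Complex.norm_real, Real.norm_eq_abs, hc, one_mul]
    have e2 := abs_norm_sub_norm_le (a (R ξ)) (c * a ξ)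
    rw [e1] at e2
    have e3 : ‖a (R ξ)‖ ^ 2 - ‖a ξ‖ ^ 2 = (‖a (R ξ)‖ - ‖a ξ‖) * (‖a (R ξ)‖ + ‖a ξ‖) := by ring
    rw [e3, abs_mul, abs_of_nonneg (by positivity : 0 ≤ ‖a (R ξ)‖ + ‖a ξ‖)]
    exact mul_le_mul_of_nonneg_right e2 (by positivity)
  refine h1.trans ?_
  have h2 : ∑ ξ, (‖a (R ξ)‖ + ‖a ξ‖) ^ 2 ≤ 4 * N0 := by
    have e1 : ∑ ξ, (‖a (R ξ)‖ + ‖a ξ‖) ^ 2 ≤ ∑ ξ, (2 * ‖a (R ξ)‖ ^ 2 + 2 * ‖a ξ‖ ^ 2) :=
      Finset.sum_le_sum fun ξ _ => by nlinarith [sq_nonneg (‖a (R ξ)‖ - ‖a ξ‖)]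
    rw [Finset.sum_add_distrib, ← Finset.mul_sum, ← Finset.mul_sum,
      Equiv.sum_comp R (fun ξ => ‖a ξ‖ ^ 2), hN] at e1
    linarith
  have h3 : (∑ ξ, ‖a (R ξ) - c * a ξ‖ * (‖a (R ξ)‖ + ‖a ξ‖)) ^ 2 ≤
      (2 * Real.sqrt ε * N0) ^ 2 := by
    refine (Finset.sum_mul_sq_le_sq_mul_sq _ _ _).trans ?_
    calc _ ≤ (ε * N0) * (4 * N0) :=
          mul_le_mul h h2 (Finset.sum_nonneg fun ξ _ => sq_nonneg _) (by positivity)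
      _ = (2 * Real.sqrt ε * N0) ^ 2 := by
          rw [mul_pow, mul_pow, Real.sq_sqrt hε]
          ring
  exact (le_abs_self _).trans (abs_le_of_sq_le_sq h3 (by positivity))

/-- the theorem for functions on the set of pairs -/
theorem pairs (f : V p → ℝ) {ε c0 c1 : ℝ} (hε : 0 ≤ ε) (hc0 : |c0| = 1) (hc1 : |c1| = 1)
    (t0 : ∑ v, (f (v + (1, 0)) - f v) ^ 2 ≤ ε * ∑ v, f v ^ 2)
    (t1 : ∑ v, (f (v + (0, 1)) - f v) ^ 2 ≤ ε * ∑ v, f v ^ 2)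
    (l0 : ∑ v, (f (R1.symm v) - c0 * f v) ^ 2 ≤ ε * ∑ v, f v ^ 2)
    (l1 : ∑ v, (f (R0.symm v) - c1 * f v) ^ 2 ≤ ε * ∑ v, f v ^ 2) :
    (1 - 50 * Real.sqrt ε) * ((p : ℝ) ^ 2 * ∑ v, f v ^ 2) ≤ (∑ v, f v) ^ 2 := by
  classical
  obtain ⟨N0, hN0⟩ : ∃ N0, N0 = (p : ℝ) ^ 2 * ∑ v, f v ^ 2 := ⟨_, rfl⟩
  have hN0' : 0 ≤ N0 := by
    rw [hN0]
    have : 0 ≤ ∑ v, f v ^ 2 := Finset.sum_nonneg fun v _ => sq_nonneg _
    positivity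
  rw [← hN0]
  have hs0 := Real.sqrt_nonneg ε
  rcases le_or_gt 1 ε with h1 | h1
  · have : 1 ≤ Real.sqrt ε := by rw [Real.one_le_sqrt]; exact h1
    have h2 : (1 - 50 * Real.sqrt ε) * N0 ≤ 0 :=
      mul_nonpos_of_nonpos_of_nonneg (by linarith) hN0'
    exact h2.trans (sq_nonneg _)
  have hreal : ∀ g : V p → ℝ, ∑ ξ, ‖ft (fun v => (g v : ℂ)) ξ‖ ^ 2 = (p : ℝ) ^ 2 * ∑ v, g v ^ 2 := by
    intro g
    rw [parseval]
    congr 1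
    refine Finset.sum_congr rfl fun v _ => ?_
    rw [Complex.norm_real, Real.norm_eq_abs, sq_abs]
  have hscale : ∀ g : V p → ℝ, ∑ v, g v ^ 2 ≤ ε * ∑ v, f v ^ 2 →
      ∑ ξ, ‖ft (fun v => (g v : ℂ)) ξ‖ ^ 2 ≤ ε * N0 := by
    intro g hg
    rw [hreal, hN0]
    calc _ ≤ (p : ℝ) ^ 2 * (ε * ∑ v, f v ^ 2) := mul_le_mul_of_nonneg_left hg (by positivity)
      _ = _ := by ring
  obtain ⟨a, ha⟩ : ∃ a : V p → ℂ, a = ft (fun v => (f v : ℂ)) := ⟨_, rfl⟩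
  have hN : ∑ ξ, ‖a ξ‖ ^ 2 = N0 := by rw [ha, hreal, hN0]
  -- linear maps
  have m0 : ∑ ξ, ‖a (R0 ξ) - c0 * a ξ‖ ^ 2 ≤ ε * N0 := by
    refine le_trans (le_of_eq ?_) (hscale _ l0)
    refine Finset.sum_congr rfl fun ξ _ => ?_
    congr 2
    have e : (fun v : V p => ((f (R1.symm v) - c0 * f v : ℝ) : ℂ)) =
        fun v => (fun v => (f (R1.symm v) : ℂ)) v - (fun v => (c0 : ℂ) * (f v : ℂ)) v := by
      funext v; push_cast; rfl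
    rw [e, ft_sub, ft_smul, ft_T0 (fun v => (f v : ℂ)), ha]
  have m1 : ∑ ξ, ‖a (R1 ξ) - c1 * a ξ‖ ^ 2 ≤ ε * N0 := by
    refine le_trans (le_of_eq ?_) (hscale _ l1)
    refine Finset.sum_congr rfl fun ξ _ => ?_
    congr 2
    have e : (fun v : V p => ((f (R0.symm v) - c1 * f v : ℝ) : ℂ)) =
        fun v => (fun v => (f (R0.symm v) : ℂ)) v - (fun v => (c1 : ℂ) * (f v : ℂ)) v := by
      funext v; push_cast; rfl
    rw [e, ft_sub, ft_smul, ft_T1 (fun v => (f v : ℂ)), ha]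
  -- translations
  have tr : ∀ e : V p, ∑ v, (f (v + e) - f v) ^ 2 ≤ ε * ∑ v, f v ^ 2 →
      ∑ ξ, ‖ps (ξ.1 * e.1 + ξ.2 * e.2) - 1‖ ^ 2 * ‖a ξ‖ ^ 2 ≤ ε * N0 := by
    intro e he
    refine le_trans (le_of_eq ?_) (hscale _ he)
    refine Finset.sum_congr rfl fun ξ _ => ?_
    rw [← mul_pow, ← norm_mul]
    congr 2
    have e1 : (fun v : V p => ((f (v + e) - f v : ℝ) : ℂ)) =
        fun v => (fun v => (f (v + e) : ℂ)) v - (fun v => (f v : ℂ)) v := by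
      funext v; push_cast; rfl
    rw [e1, ft_sub, ft_translate (fun v => (f v : ℂ)), ha]
    ring
  have n0 := tr (1, 0) t0
  have n1 := tr (0, 1) t1
  simp only [mul_one, mul_zero, add_zero, zero_add] at n0 n1
  have hhalf : ∀ g : V p → ZMod p, ∑ ξ, ‖ps (g ξ) - 1‖ ^ 2 * ‖a ξ‖ ^ 2 ≤ ε * N0 →
      ∑ ξ ∈ univ.filter (fun ξ : V p => (p : ℤ) ≤ 4 * |(g ξ).valMinAbs|), ‖a ξ‖ ^ 2 ≤
        ε * N0 / 2 := by
    intro g hg
    have e1 : ∑ ξ ∈ univ.filter (fun ξ : V p => (p : ℤ) ≤ 4 * |(g ξ).valMinAbs|),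
        2 * ‖a ξ‖ ^ 2 ≤ ε * N0 := by
      refine le_trans ?_ hg
      refine le_trans (Finset.sum_le_sum (g := fun ξ => ‖ps (g ξ) - 1‖ ^ 2 * ‖a ξ‖ ^ 2)
        fun ξ hξ => ?_) (Finset.sum_le_univ_sum_of_nonneg fun ξ => by positivity)
      exact mul_le_mul_of_nonneg_right (ps_far (Finset.mem_filter.1 hξ).2) (by positivity)
    rw [← Finset.mul_sum] at e1
    linarith
  have b0 := hhalf (fun ξ => ξ.1) n0
  have b1 := hhalf (fun ξ => ξ.2) n1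
  have hν : ∀ ξ, 0 ≤ ‖a ξ‖ ^ 2 := fun ξ => by positivity
  have hb : ∑ ξ ∈ univ.filter (fun ξ : V p => ¬ Bx ξ), ‖a ξ‖ ^ 2 ≤ ε * N0 := by
    have k1 : univ.filter (fun ξ : V p => ¬ Bx ξ) ⊆
        univ.filter (fun ξ : V p => (p : ℤ) ≤ 4 * |ξ.1.valMinAbs|) ∪
        univ.filter (fun ξ : V p => (p : ℤ) ≤ 4 * |ξ.2.valMinAbs|) := by
      intro ξ hξ
      rw [Finset.mem_filter] at hξ
      rw [Finset.mem_union, Finset.mem_filter, Finset.mem_filter]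
      have h3 := hξ.2
      unfold Bx at h3
      by_cases h4 : 4 * |ξ.1.valMinAbs| < p
      · exact Or.inr ⟨Finset.mem_univ _, by
          by_contra h5
          exact h3 ⟨h4, not_le.1 h5⟩⟩
      · exact Or.inl ⟨Finset.mem_univ _, not_lt.1 h4⟩
    have k2 := Finset.sum_le_sum_of_subset_of_nonneg k1 (fun ξ _ _ => hν ξ)
    have k3 := sum_union_le hν (univ.filter (fun ξ : V p => (p : ℤ) ≤ 4 * |ξ.1.valMinAbs|))
      (univ.filter (fun ξ : V p => (p : ℤ) ≤ 4 * |ξ.2.valMinAbs|))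
    linarith
  have fin := comb hν (pert hN hε hc0 R0 m0) (pert hN hε hc1 R1 m1) hb
  rw [hN] at fin
  have e0 : ‖a 0‖ ^ 2 = (∑ v, f v) ^ 2 := by
    have e1 : a 0 = ((∑ v, f v : ℝ) : ℂ) := by
      rw [ha]
      unfold ft
      push_cast
      refine Finset.sum_congr rfl fun v _ => ?_
      simp [ps]
    rw [e1, Complex.norm_real, Real.norm_eq_abs, sq_abs]
  rw [e0] at fin
  have e2 : ε ≤ Real.sqrt ε := by
    have := Real.sq_sqrt hε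
    have h3 : Real.sqrt ε ≤ 1 := by
      calc Real.sqrt ε ≤ Real.sqrt 1 := Real.sqrt_le_sqrt h1.le
        _ = 1 := Real.sqrt_one
    nlinarith
  have e3 : ε * N0 ≤ Real.sqrt ε * N0 := mul_le_mul_of_nonneg_right e2 hN0'
  have e4 : 0 ≤ Real.sqrt ε * N0 := by positivity
  nlinarith

/-- job EV-RELT -/
theorem relt : S_RELT := by
  intro p _ F ε c hε hc ht h0 h1
  obtain ⟨f, hf⟩ : ∃ f : V p → ℝ, f = fun w => F ![w.1, w.2] := ⟨_, rfl⟩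
  have hsum : ∀ g : (Fin 2 → ZMod p) → ℝ, ∑ v, g v = ∑ w : V p, g ![w.1, w.2] := by
    intro g
    rw [← Equiv.sum_comp (finTwoArrowEquiv (ZMod p)).symm g]
    rfl
  rw [hsum] at h0 h1
  rw [hsum (fun v => F v ^ 2)] at h0 h1 ⊢
  rw [hsum F]
  have e0 : ∀ w : V p, (![w.1, w.2] : Fin 2 → ZMod p) + Pi.single 0 1 = ![w.1 + 1, w.2] := by
    intro w
    ext i
    fin_cases i <;> simp
  have e1 : ∀ w : V p, (![w.1, w.2] : Fin 2 → ZMod p) + Pi.single 1 1 = ![w.1, w.2 + 1] := by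
    intro w
    ext i
    fin_cases i <;> simp
  have t0 := ht 0
  have t1 := ht 1
  rw [hsum, hsum (fun v => F v ^ 2)] at t0 t1
  simp only [e0] at t0
  simp only [e1] at t1
  have key := pairs f hε (hc 0) (hc 1) (by
      rw [hf]
      simpa using t0) (by
      rw [hf]
      simpa using t1) (by
      rw [hf]
      simpa [R1] using h0) (by
      rw [hf]
      simpa [R0] using h1)
  rw [hf] at key
  exact key

end Pool.Agent.Z864.RT
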